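import Pool.Agent.Q297.SpH

/-!
Scaling limit of the span set of simple random walk (MP_52e894_pr).

The rescaled span sets of simple symmetric random walk converge in distribution, as random
elements of the space of nonempty compact subsets of `[0,1]` with the Hausdorff metric, to the
span set of Brownian motion on `[0,1]`.
-/

open MeasureTheory ProbabilityTheory Filter Set TopologicalSpace
open scoped Topology NNReal ENNReal

namespace Pool.Agent.Results.MP_52e894_pr.SpanScalingLimit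

/-- the span set `{t - s : 0 ≤ s ≤ t ≤ 1, f s = f t}` of a path on `[0,1]` -/
def spanSet (f : ℝ≥0 → ℝ) : Set ℝ :=
  {h | ∃ s t : ℝ≥0, s ≤ t ∧ t ≤ 1 ∧ f s = f t ∧ h = (t : ℝ) - s}

/-- the rescaled span set `(1/N) {k - l : 0 ≤ l ≤ k ≤ N, z k = z l}` of a walk -/
def spanWalk (z : ℕ → ℤ) (N : ℕ) : Set ℝ :=
  {h | ∃ l k : ℕ, l ≤ k ∧ k ≤ N ∧ z k = z l ∧ h = ((k : ℝ) - l) / N}

/-- the space of nonempty compact subsets of `[0,1]`; in Mathlib it carries the Hausdorff metric -/
abbrev K := NonemptyCompacts (Icc (0 : ℝ) 1)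

/-- the Borel sigma-algebra of the Hausdorff metric -/
instance instK : MeasurableSpace K := borel K
instance : BorelSpace K := ⟨rfl⟩

/-- the closure in `[0,1]` of the part of `A` in `[0,1]`, as an element of `K`; the sets `spanWalk`
are finite and the set `spanSet f` is compact if `f` is continuous, so the closure only serves to
have a definition for arbitrary `f` -/
def toK (A : Set ℝ) (h0 : (0 : ℝ) ∈ A) : K :=
  ⟨⟨closure ((fun h : Icc (0 : ℝ) 1 => (h : ℝ)) ⁻¹' A), isClosed_closure.isCompact⟩,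
    ⟨⟨0, by simp⟩, subset_closure h0⟩⟩

lemma zero_mem_spanSet (f : ℝ≥0 → ℝ) : (0 : ℝ) ∈ spanSet f :=
  ⟨0, 0, le_rfl, zero_le, rfl, by simp⟩

lemma zero_mem_spanWalk (z : ℕ → ℤ) (N : ℕ) : (0 : ℝ) ∈ spanWalk z N :=
  ⟨0, 0, le_rfl, zero_le, rfl, by simp⟩

/-- the random walk with the steps `X 0, X 1, ...`, started at `0` -/
def walk {Ω' : Type*} (X : ℕ → Ω' → ℤ) (ω : Ω') (k : ℕ) : ℤ := ∑ i ∈ Finset.range k, X i ω

/-- the span set of a path is contained in `[0,1]`, and it is closed if the path is continuous -/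
lemma spanSet_facts (f : ℝ≥0 → ℝ) (hf : Continuous f) :
    spanSet f ⊆ Icc 0 1 ∧ IsClosed (spanSet f) := by
  refine ⟨Q297.Spn.Sp_sub f, ?_⟩
  have hK : IsCompact {p : ℝ≥0 × ℝ≥0 | p.1 ≤ p.2 ∧ p.2 ≤ 1 ∧ f p.1 = f p.2} := by
    have hcl : IsClosed {p : ℝ≥0 × ℝ≥0 | p.1 ≤ p.2 ∧ p.2 ≤ 1 ∧ f p.1 = f p.2} := by
      refine IsClosed.and ?_ (IsClosed.and ?_ ?_)
      · exact isClosed_le (by fun_prop) (by fun_prop)
      · exact isClosed_le (by fun_prop) continuous_const
      · exact isClosed_eq (by fun_prop) (by fun_prop)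
    refine (isCompact_Icc.prod isCompact_Icc : IsCompact (Icc (0 : ℝ≥0) 1 ×ˢ Icc (0 : ℝ≥0) 1)).of_isClosed_subset hcl ?_
    rintro ⟨s, t⟩ ⟨h1, h2, -⟩
    exact ⟨⟨zero_le, h1.trans h2⟩, ⟨zero_le, h2⟩⟩
  have e : spanSet f = (fun p : ℝ≥0 × ℝ≥0 => (p.2 : ℝ) - p.1) ''
      {p : ℝ≥0 × ℝ≥0 | p.1 ≤ p.2 ∧ p.2 ≤ 1 ∧ f p.1 = f p.2} := by
    ext h
    constructor
    · rintro ⟨s, t, h1, h2, h3, rfl⟩
      exact ⟨(s, t), ⟨h1, h2, h3⟩, rfl⟩
    · rintro ⟨⟨s, t⟩, ⟨h1, h2, h3⟩, rfl⟩
      exact ⟨s, t, h1, h2, h3, rfl⟩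
  rw [e]
  exact (hK.image (by fun_prop)).isClosed

/-- **Theorem.** Let `B` be a Brownian motion and let `X 0, X 1, ...` be independent steps with
`P(X i = 1) = P(X i = -1) = 1/2`, on arbitrary probability spaces. The rescaled span sets of the
walk converge in distribution to the span set of `B`. -/
theorem result {Ω Ω' : Type*} [MeasurableSpace Ω] [MeasurableSpace Ω'] (P : Measure Ω)
    [IsProbabilityMeasure P] (P' : Measure Ω') [IsProbabilityMeasure P'] (B : ℝ≥0 → Ω → ℝ)
    (hB : IsBrownianReal B P) (X : ℕ → Ω' → ℤ) (hX : ∀ i, Measurable (X i))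
    (hXi : iIndepFun X P') (hX1 : ∀ i, P' {ω | X i ω = 1} = 1 / 2)
    (hX2 : ∀ i, P' {ω | X i ω = -1} = 1 / 2) :
    TendstoInDistribution
      (fun (N : ℕ) (ω : Ω') => toK (spanWalk (walk X ω) N) (zero_mem_spanWalk _ N)) atTop
      (fun ω : Ω => toK (spanSet (fun t => B t ω)) (zero_mem_spanSet _)) (fun _ => P') P := by
  obtain ⟨b, hb, hbB⟩ := Q297.Spn.exists_path hB
  set W : Measure Q297.Prepend.Path := P.map b with hWdef
  have hW : IsBrownianReal (fun (t : ℝ≥0) (x : Q297.Prepend.Path) => x t) W :=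
    Q297.Spn.wiener_of_path hB hb hbB
  -- the limit
  have hlim : (fun ω : Ω => toK (spanSet (fun t => B t ω)) (zero_mem_spanSet _)) =ᵐ[P]
      (fun ω => Q297.Spn.SpK (b ω)) := by
    filter_upwards [hbB] with ω hω
    have e : (fun t => B t ω) = (b ω : ℝ≥0 → ℝ) := by
      funext t; exact (hω t).symm
    simp only [e]
    rfl
  have mlim : Measurable (fun ω => Q297.Spn.SpK (b ω)) := Q297.Spn.SpK_meas.comp hb
  -- the walk
  have hmW : ∀ N : ℕ, Measurable (fun ω : Ω' => toK (spanWalk (walk X ω) N) (zero_mem_spanWalk _ N)) := by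
    intro N
    have e : (fun ω : Ω' => toK (spanWalk (walk X ω) N) (zero_mem_spanWalk _ N)) =
        (fun v : Fin N → ℤ => Q297.Spn.SpWK (fun k => ∑ i ∈ Finset.range k,
          (if h : i < N then v ⟨i, h⟩ else 0)) N) ∘ (fun ω (i : Fin N) => X i ω) := by
      funext ω
      refine Q297.Spn.toK_congr (hA := zero_mem_spanWalk _ _) (hB := Q297.Spn.zero_SpW _ _)
        (Q297.Spn.SpW_congr fun k hk => ?_)
      unfold walk
      refine Finset.sum_congr rfl fun i hi => ?_
      have : i < N := (Finset.mem_range.1 hi).trans_le hk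
      simp [this]
    rw [e]
    exact (measurable_of_countable _).comp (measurable_pi_lambda _ fun i => hX i)
  have hval : ∀ᵐ ω ∂P', ∀ i, X i ω = 1 ∨ X i ω = -1 := by
    refine ae_all_iff.2 fun i => ?_
    have m1 : MeasurableSet {ω | X i ω = 1} := hX i (measurableSet_singleton 1)
    have m2 : MeasurableSet {ω | X i ω = -1} := hX i (measurableSet_singleton (-1))
    have hd : Disjoint {ω | X i ω = 1} {ω | X i ω = -1} := by
      rw [Set.disjoint_left]
      intro ω h1 h2
      simp only [mem_ofPred_eq] at h1 h2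
      omega
    have h3 : P' ({ω | X i ω = 1} ∪ {ω | X i ω = -1}) = 1 := by
      rw [measure_union hd m2, hX1, hX2, ENNReal.add_halves]
    exact (prob_compl_eq_zero_iff (m1.union m2)).2 h3
  have hwalk : ∀ N : ℕ, (fun ω : Ω' => toK (spanWalk (walk X ω) N) (zero_mem_spanWalk _ N)) =ᵐ[P']
      (fun ω => Q297.Spn.SpWK (Q297.Spn.cB fun i => decide (X i ω = 1)) N) := by
    intro N
    filter_upwards [hval] with ω hω
    refine Q297.Spn.toK_congr (hA := zero_mem_spanWalk _ _) (hB := Q297.Spn.zero_SpW _ _)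
      (Q297.Spn.SpW_congr fun k _ => ?_)
    unfold walk Q297.Spn.cB
    refine Finset.sum_congr rfl fun i _ => ?_
    rcases hω i with h | h <;> simp [h]
  refine ⟨fun N => (hmW N).aemeasurable, mlim.aemeasurable.congr hlim.symm, ?_⟩
  rw [ProbabilityMeasure.tendsto_iff_forall_integral_tendsto]
  intro F
  have hF := Q297.Spn.conv hW F
  have e0 : ∫ x, F (Q297.Spn.SpK x) ∂W = ∫ ω, F (Q297.Spn.SpK (b ω)) ∂P := by
    have h := integral_map (μ := P) hb.aemeasurable
      (f := fun x : Q297.Prepend.Path => F (Q297.Spn.SpK x))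
      (F.continuous.measurable.comp Q297.Spn.SpK_meas).aestronglyMeasurable
    rw [hWdef, h]
  have e1 : ∫ y, F y ∂(P.map (fun ω : Ω => toK (spanSet (fun t => B t ω)) (zero_mem_spanSet _))) =
      ∫ x, F (Q297.Spn.SpK x) ∂W := by
    rw [e0, Measure.map_congr hlim, integral_map mlim.aemeasurable
      F.continuous.aestronglyMeasurable]
  have e2 : ∀ N : ℕ, ∫ y, F y ∂(P'.map (fun ω : Ω' =>
      toK (spanWalk (walk X ω) N) (zero_mem_spanWalk _ N))) =
      ∫ x, F (Q297.Spn.SpWK (fun k => Q297.Spn.Z k x) N) ∂W := by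
    intro N
    rw [← Q297.Spn.walk_law hW hX hXi hX1 N F, integral_map (hmW N).aemeasurable
      F.continuous.aestronglyMeasurable]
    refine integral_congr_ae ?_
    filter_upwards [hwalk N] with ω hω
    rw [hω]
  simp only [ProbabilityMeasure.coe_mk]
  rw [e1]
  refine hF.congr fun N => ?_
  rw [e2]

end Pool.Agent.Results.MP_52e894_pr.SpanScalingLimit
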